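import Pool.Agent.Helper55.CP.Facts

/-! Capture: on a set of the ultrafilter the suprema are computed from one of them. -/

set_option autoImplicit false

open Cardinal Ordinal Set Filter Helper23.Pcf

universe u

namespace Helper55.CP

/-- the range of a normal sequence is a club -/
theorem club_range {o : Ordinal.{u}} (ho : Order.IsSuccLimit o) (v : Ordinal.{u} → Ordinal.{u})
    (hv : ∀ i j, i < j → j ≤ o → v i < v j)
    (cv : ∀ i ≤ o, Order.IsSuccLimit i → ∀ x < v i, ∃ j < i, x < v j) :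
    ClubIn {x | ∃ i < o, v i = x} (v o) := by
  classical
  have hle : ∀ i j, i ≤ j → j ≤ o → v i ≤ v j := fun i j hij hj => by
    rcases hij.eq_or_lt with rfl | h
    · exact le_rfl
    · exact (hv i j h hj).le
  refine ⟨?_, ?_⟩
  · intro x hx
    obtain ⟨j, hj, hxj⟩ := cv o le_rfl ho x hx
    exact ⟨v j, ⟨j, hj, rfl⟩, hxj, hv _ _ hj le_rfl⟩
  · intro δ hδ hδ0 hu
    obtain ⟨j₀, hj₀, hδj₀⟩ := cv o le_rfl ho δ hδ
    let P : Set Ordinal.{u} := {i | δ ≤ v i}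
    have hne : P.Nonempty := ⟨j₀, hδj₀.le⟩
    set η := sInf P with hη
    have hηP : δ ≤ v η := csInf_mem hne
    have hmin : ∀ i < η, v i < δ := fun i hi => not_le.1 fun h => notMem_of_lt_csInf' hi h
    have hηo : η < o := lt_of_le_of_lt (csInf_le' (show j₀ ∈ P from hδj₀.le)) hj₀
    refine ⟨η, hηo, ?_⟩
    rcases hηP.eq_or_lt with h | h
    · exact h.symm
    exfalso
    -- `η` is not a limit
    by_cases hlim : Order.IsSuccLimit η
    · obtain ⟨i, hi, h1⟩ := cv η hηo.le hlim δ h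
      exact absurd (hmin i hi) (not_lt.2 h1.le)
    rcases Ordinal.zero_or_succ_or_isSuccLimit η with h0 | ⟨i, hi⟩ | h0
    · obtain ⟨_, ⟨i, hi, rfl⟩, _, h2⟩ := hu 0 hδ0
      rw [h0] at hηP
      exact absurd h2 (not_lt.2 (hηP.trans (hle 0 i zero_le hi.le)))
    · have hi' : i < η := by rw [← hi]; exact Order.lt_succ i
      obtain ⟨_, ⟨k, hk, rfl⟩, h1, h2⟩ := hu (v i) (hmin i hi')
      have hik : i < k := by
        by_contra hcon
        exact absurd h1 (not_lt.2 (hle k i (not_lt.1 hcon) (hi'.trans hηo).le))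
      have : η ≤ k := by rw [← hi]; exact Order.succ_le_of_lt hik
      exact absurd h2 (not_lt.2 (hηP.trans (hle _ _ this hk.le)))
    · exact hlim h0

section
variable {T : Data.{u}} {S : Scales T} {J : Type u} {G : J → List Ordinal.{u} → Ordinal.{u}}
  {B : Set Ordinal.{u}} {N : Ordinal.{u} → Set Ordinal.{u}}

theorem Chain.club_chi (h : Chain T S G B N) {ε : Ordinal.{u}} (hε : Order.IsSuccLimit ε)
    (hεμ : ε < (Order.succ T.μ).ord) (p : T.P) :
    ClubIn {x | ∃ i < ε, Helper55.CP.chi (N i) (T.c p).ord = x}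
      (Helper55.CP.chi (N ε) (T.c p).ord) :=
  club_range hε (fun i => Helper55.CP.chi (N i) (T.c p).ord)
    (fun i j hij hj => h.chi_strict hij (lt_of_le_of_lt hj hεμ) p)
    (fun i _ hi x hx => h.chi_cont hi hx)

/-- CAPTURE -/
theorem Chain.capture (h : Chain T S G B N) (hG : ∀ q p, ∃ j, ∀ ξ, G j [ξ] = S.f q ξ p)
    {ε : Ordinal.{u}} (hε : T.κ < ε.cof) (hεμ : ε < (Order.succ T.μ).ord) (q : T.Q) :
    ∀ᶠ p in T.D q, Helper55.CP.chi (N ε) (T.c p).ord =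
      gm (fun ξ => S.f q ξ p) (Helper55.CP.chi (N ε) (T.c (T.lam q)).ord) := by
  classical
  have hlim := limit_of_cof hε
  set δ := Helper55.CP.chi (N ε) (T.c (T.lam q)).ord with hδ
  have hδcof : δ.cof = ε.cof := h.chi_cof hlim hεμ _
  have hδκ : T.κ < δ.cof := by rw [hδcof]; exact hε
  have hδ0 : ℵ₀ < δ.cof := T.hκ.trans_lt hδκ
  have hC0 := h.club_chi hlim hεμ (T.lam q)
  rw [← hδ] at hC0
  -- the easy inequality
  have hmem : ∀ p, Helper55.CP.chi (N ε) (T.c p).ord ∈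
      {s | ∃ C, ClubIn C δ ∧ ∀ ξ ∈ C, ξ < δ → S.f q ξ p ≤ s} := by
    intro p
    refine ⟨_, hC0, ?_⟩
    rintro _ ⟨i, hi, rfl⟩ _
    obtain ⟨j, hj⟩ := hG q p
    have h1 : Helper55.CP.chi (N i) (T.c (T.lam q)).ord ∈ N (Order.succ i) :=
      h.chi i _ (Order.lt_succ i) ((hlim.succ_lt hi).trans hεμ) _
    have h2 := h.op (Order.succ i) ε (hlim.succ_lt hi) hεμ j
      [Helper55.CP.chi (N i) (T.c (T.lam q)).ord] (by simpa using h1)
    rw [hj] at h2
    exact (lt_chi h2 (S.lt q _ p)).le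
  have hle : ∀ p, gm (fun ξ => S.f q ξ p) δ ≤ Helper55.CP.chi (N ε) (T.c p).ord :=
    fun p => csInf_le' (hmem p)
  have hatt : ∀ p, ∃ C, ClubIn C δ ∧ ∀ ξ ∈ C, ξ < δ → S.f q ξ p ≤ gm (fun ξ => S.f q ξ p) δ :=
    fun p => csInf_mem ⟨_, hmem p⟩
  choose C hC hC' using hatt
  have hI : ClubIn (⋂ p : T.X q, C p.1) δ :=
    club_iInter hδ0 ((T.hXκ q).trans_lt hδκ) _ fun p => hC p.1
  by_contra hcon
  rw [← Ultrafilter.eventually_not] at hcon
  have hbad : ∀ᶠ p in T.D q, gm (fun ξ => S.f q ξ p) δ < Helper55.CP.chi (N ε) (T.c p).ord :=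
    hcon.mono fun p hp => lt_of_le_of_ne (hle p) (Ne.symm hp)
  have h1 : ∀ p, ∃ η < ε, gm (fun ξ => S.f q ξ p) δ < Helper55.CP.chi (N ε) (T.c p).ord →
      gm (fun ξ => S.f q ξ p) δ < Helper55.CP.chi (N η) (T.c p).ord := by
    intro p
    by_cases hp : gm (fun ξ => S.f q ξ p) δ < Helper55.CP.chi (N ε) (T.c p).ord
    · obtain ⟨η, hη, h2⟩ := h.chi_cont hlim hp
      exact ⟨η, hη, fun _ => h2⟩
    · exact ⟨0, hlim.bot_lt, fun h => absurd h hp⟩
  choose η hη h2 using h1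
  obtain ⟨η', hη', h3⟩ := common_stage hε q η fun p _ => hη p
  obtain ⟨ξ, hξ, hξ2, h4⟩ := h.scale η' ε hη' hεμ q
  have hξδ : ξ < δ := lt_chi hξ hξ2
  obtain ⟨ξ', hξ', h5, h6⟩ := hI.unb ξ hξδ
  have h7 := S.mono q ξ ξ' h5 (lt_of_lt_of_le h6 chi_le)
  obtain ⟨p, hp⟩ := (((hbad.and (T.hX q)).and h4).and h7).exists
  obtain ⟨⟨⟨g1, g2⟩, g3⟩, g4⟩ := hp
  have g5 := h2 p g1
  have g6 : Helper55.CP.chi (N (η p)) (T.c p).ord ≤ Helper55.CP.chi (N η') (T.c p).ord :=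
    h.chi_mono (h3 p g2) _
  have g7 : S.f q ξ' p ≤ gm (fun ξ => S.f q ξ p) δ :=
    hC' p ξ' (mem_iInter.1 hξ' ⟨p, g2⟩) h6
  have g8 : gm (fun ξ => S.f q ξ p) δ < S.f q ξ' p := g5.trans_le g6 |>.trans g3 |>.trans g4
  exact absurd g8 (not_lt.2 g7)

end

end Helper55.CP
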