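import Pool.Agent.Helper55.CP.Defs

/-! The data of the cofinality pattern theorem. -/

set_option autoImplicit false

open Cardinal Ordinal Set Filter Helper23.Pcf

universe u

namespace Helper55.CP

/-- The pcf data: regular cardinals `c p` (`p : P`) above `μ`, ultrafilters `D q` on `P`
concentrating on a set of at most `κ` points, `∏ c / D q` of cofinality `c (lam q)`. -/
structure Data where
  P : Type u
  Q : Type u
  κ : Cardinal.{u}
  μ : Cardinal.{u}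
  c : P → Cardinal.{u}
  D : Q → Ultrafilter P
  X : Q → Set P
  lam : Q → P
  hκ : ℵ₀ ≤ κ
  hκμ : κ ≤ μ
  inj : Function.Injective c
  reg : ∀ p, (c p).IsRegular
  hμc : ∀ p, μ < c p
  hP : #P ≤ μ
  hQ : #Q ≤ μ
  hX : ∀ q, X q ∈ D q
  hXκ : ∀ q, #(X q) ≤ κ
  cof : ∀ q, HasCof (D q) (fun p => (c p).ord) (c (lam q))

/-- scales for the ultraproducts of the data -/
structure Scales (T : Data.{u}) where
  f : T.Q → Ordinal.{u} → T.P → Ordinal.{u}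
  lt : ∀ q ξ p, f q ξ p < (T.c p).ord
  mono : ∀ q ξ η, ξ < η → η < (T.c (T.lam q)).ord → dlt (T.D q) (f q ξ) (f q η)
  cofinal : ∀ q g, dlt (T.D q) g (fun p => (T.c p).ord) →
    ∃ ξ < (T.c (T.lam q)).ord, dlt (T.D q) g (f q ξ)

/-- A continuous chain of sets of size at most `μ`, each closed off over the previous ones. -/
structure Chain (T : Data.{u}) (S : Scales T) {J : Type u}
    (G : J → List Ordinal.{u} → Ordinal.{u}) (B : Set Ordinal.{u})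
    (N : Ordinal.{u} → Set Ordinal.{u}) : Prop where
  base : ∀ ε, B ⊆ N ε
  mono : ∀ η ε, η ≤ ε → N η ⊆ N ε
  lim : ∀ ε, Order.IsSuccLimit ε → ∀ z ∈ N ε, ∃ η < ε, z ∈ N η
  card : ∀ ε < (Order.succ T.μ).ord, #(N ε) ≤ Cardinal.lift.{u+1} T.μ
  op : ∀ η ε, η < ε → ε < (Order.succ T.μ).ord → ∀ j l, (∀ z ∈ l, z ∈ N η) → G j l ∈ N ε
  chi : ∀ η ε, η < ε → ε < (Order.succ T.μ).ord → ∀ p, chi (N η) (T.c p).ord ∈ N ε
  scale : ∀ η ε, η < ε → ε < (Order.succ T.μ).ord → ∀ q, ∃ ξ ∈ N ε, ξ < (T.c (T.lam q)).ord ∧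
    ∀ᶠ p in T.D q, Helper55.CP.chi (N η) (T.c p).ord < S.f q ξ p
  bd : ∀ η ε, η < ε → ε < (Order.succ T.μ).ord → ∀ q p', T.c p' < T.c (T.lam q) →
    ∃ g : T.P → Ordinal.{u}, (∀ p, g p ∈ N ε ∧ g p < (T.c p).ord) ∧
      ∀ l : List Ordinal.{u}, (∀ z ∈ l, z < (T.c p').ord) →
        ∀ᶠ p in T.D q, ∀ z ∈ Clo G (N η ∪ ls l), z < (T.c p).ord → z < g p

/-- The least supremum of `f` along a club of `δ`. -/
noncomputable def gm (f : Ordinal.{u} → Ordinal.{u}) (δ : Ordinal.{u}) : Ordinal.{u} :=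
  sInf {s | ∃ C, ClubIn C δ ∧ ∀ ξ ∈ C, ξ < δ → f ξ ≤ s}

/-- The set `a` and the cardinals `c (t j)`, `j < κ⁺`, above it, with the instances of no holes. -/
structure Theta (T : Data.{u}) where
  a : Set T.P
  t : Ordinal.{u} → T.P
  s : Ordinal.{u} → Ordinal.{u}
  ha : #a ≤ T.κ
  hat : ∀ x ∈ a, ∀ j < (Order.succ T.κ).ord, T.c x < T.c (t j)
  ht : ∀ j j', j < j' → j' < (Order.succ T.κ).ord → T.c (t j) < T.c (t j')
  hs : ∀ j < (Order.succ T.κ).ord, s j < (Order.succ T.κ).ord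
  hqa : ∀ j < (Order.succ T.κ).ord, ∃ q, T.lam q = t j ∧ a ∈ T.D q
  hqt : ∀ j₀ < (Order.succ T.κ).ord, ∀ j, s j₀ ≤ j → j < (Order.succ T.κ).ord →
    ∃ q, T.lam q = t j ∧ {p | ∃ j', j₀ ≤ j' ∧ j' < s j₀ ∧ p = t j'} ∈ T.D q

end Helper55.CP
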