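import Mathlib
import Pool.Agent.Helper23.Pcf.Fodor
import Pool.Agent.Helper23.Pcf.Sets

/-! Basic notions for the cofinality pattern theorem: closures, suprema of small sets. -/

set_option autoImplicit false

open Cardinal Ordinal Set Filter Helper23.Pcf

universe u

namespace Helper55.CP

/-- `M` is closed under the finitary operations `G j`. -/
def ClosedUnder {J : Type u} (G : J → List Ordinal.{u} → Ordinal.{u}) (M : Set Ordinal.{u}) :
    Prop := ∀ j l, (∀ z ∈ l, z ∈ M) → G j l ∈ M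

/-- the closure of `X` under the finitary operations `G j` -/
def Clo {J : Type u} (G : J → List Ordinal.{u} → Ordinal.{u}) (X : Set Ordinal.{u}) :
    Set Ordinal.{u} := {z | ∀ M, X ⊆ M → ClosedUnder G M → z ∈ M}

/-- the least strict upper bound of `M ∩ o` (at most `o`) -/
noncomputable def chi (M : Set Ordinal.{u}) (o : Ordinal.{u}) : Ordinal.{u} :=
  sInf {y | ∀ z ∈ M, z < o → z < y}

/-- the members of a list -/
def ls (l : List Ordinal.{u}) : Set Ordinal.{u} := {z | z ∈ l}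

/-- unions of at most `ν` sets of size at most `ν` -/
theorem mk_iUnion_small {T : Type (u+1)} {ν : Cardinal.{u}} (hν : ℵ₀ ≤ ν)
    (f : T → Set Ordinal.{u}) (hT : #T ≤ Cardinal.lift.{u+1} ν)
    (h : ∀ t, #(f t) ≤ Cardinal.lift.{u+1} ν) :
    #(⋃ t, f t : Set Ordinal.{u}) ≤ Cardinal.lift.{u+1} ν := by
  have hν' : ℵ₀ ≤ Cardinal.lift.{u+1} ν := Cardinal.aleph0_le_lift.2 hν
  refine (Cardinal.mk_iUnion_le f).trans ?_
  refine (Cardinal.mul_le_max _ _).trans (max_le (max_le hT (ciSup_le' h)) hν')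

theorem mk_iUnion_small' {T : Type u} {ν : Cardinal.{u}} (hν : ℵ₀ ≤ ν)
    (f : T → Set Ordinal.{u}) (hT : #T ≤ ν)
    (h : ∀ t, #(f t) ≤ Cardinal.lift.{u+1} ν) :
    #(⋃ t, f t : Set Ordinal.{u}) ≤ Cardinal.lift.{u+1} ν := by
  have h1 : (⋃ t, f t) = ⋃ t : ULift.{u+1} T, f t.down := by
    ext z
    simp only [mem_iUnion]
    constructor
    · rintro ⟨t, ht⟩
      exact ⟨⟨t⟩, ht⟩
    · rintro ⟨t, ht⟩
      exact ⟨t.down, ht⟩
  rw [h1]
  refine mk_iUnion_small hν _ ?_ fun t => h _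
  rw [Cardinal.mk_uLift]
  exact Cardinal.lift_le.2 hT

section clo
variable {J : Type u} {G : J → List Ordinal.{u} → Ordinal.{u}} {X Y M : Set Ordinal.{u}}

theorem subset_Clo : X ⊆ Clo G X := fun _ hz _ hM _ => hM hz

theorem Clo_closed : ClosedUnder G (Clo G X) := fun j l hl M hM hc =>
  hc j l fun z hz => hl z hz M hM hc

theorem Clo_min (h : X ⊆ M) (hM : ClosedUnder G M) : Clo G X ⊆ M := fun _ hz => hz M h hM

theorem Clo_mono (h : X ⊆ Y) : Clo G X ⊆ Clo G Y := Clo_min (h.trans subset_Clo) Clo_closed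

theorem Clo_le (h : X ⊆ Clo G Y) : Clo G X ⊆ Clo G Y := Clo_min h Clo_closed

/-- finitary character along a directed family -/
theorem Clo_directed {I : Type*} [Nonempty I] (S : I → Set Ordinal.{u})
    (hS : Directed (· ⊆ ·) S) {z : Ordinal.{u}} (hz : z ∈ Clo G (⋃ i, S i)) :
    ∃ i, z ∈ Clo G (S i) := by
  have : Clo G (⋃ i, S i) ⊆ ⋃ i, Clo G (S i) := by
    refine Clo_min (iUnion_mono fun i => subset_Clo) ?_
    intro j l hl
    have h1 : ∃ i, ∀ z ∈ l, z ∈ Clo G (S i) := by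
      induction l with
      | nil => exact ⟨Classical.arbitrary I, by simp⟩
      | cons a l ih =>
        obtain ⟨i, hi⟩ := ih fun z hz => hl z (List.mem_cons_of_mem _ hz)
        obtain ⟨i', hi'⟩ := mem_iUnion.1 (hl a List.mem_cons_self)
        obtain ⟨k, hk, hk'⟩ := hS i i'
        refine ⟨k, fun z hz => ?_⟩
        rcases List.mem_cons.1 hz with rfl | hz
        · exact Clo_mono hk' hi'
        · exact Clo_mono hk (hi z hz)
    obtain ⟨i, hi⟩ := h1
    exact mem_iUnion.2 ⟨i, Clo_closed j l hi⟩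
  exact mem_iUnion.1 (this hz)

/-- finitary character: finitely many generators suffice -/
theorem Clo_finite {z : Ordinal.{u}} (hz : z ∈ Clo G X) :
    ∃ l : List Ordinal.{u}, (∀ y ∈ l, y ∈ X) ∧ z ∈ Clo G (ls l) := by
  have : Clo G X ⊆ {z | ∃ l : List Ordinal.{u}, (∀ y ∈ l, y ∈ X) ∧ z ∈ Clo G (ls l)} := by
    refine Clo_min (fun z hz => ⟨[z], by simpa using hz, subset_Clo (by simp [ls])⟩) ?_
    intro j l hl
    have h1 : ∃ m : List Ordinal.{u}, (∀ y ∈ m, y ∈ X) ∧ ∀ z ∈ l, z ∈ Clo G (ls m) := by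
      induction l with
      | nil => exact ⟨[], by simp, by simp⟩
      | cons a l ih =>
        obtain ⟨m, hm, hm'⟩ := ih fun z hz => hl z (List.mem_cons_of_mem _ hz)
        obtain ⟨m', h3, h4⟩ := hl a List.mem_cons_self
        refine ⟨m ++ m', fun y hy => ?_, fun z hz => ?_⟩
        · rcases List.mem_append.1 hy with h | h
          · exact hm y h
          · exact h3 y h
        · rcases List.mem_cons.1 hz with rfl | hz
          · exact Clo_mono (fun y (hy : y ∈ m') => List.mem_append_right _ hy) h4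
          · exact Clo_mono (fun y (hy : y ∈ m) => List.mem_append_left _ hy) (hm' z hz)
    obtain ⟨m, hm, hm'⟩ := h1
    exact ⟨m, hm, Clo_closed j l hm'⟩
  exact this hz

/-- one step of the closure -/
def cstep (G : J → List Ordinal.{u} → Ordinal.{u}) (T : Set Ordinal.{u}) : Set Ordinal.{u} :=
  T ∪ range (fun p : J × List T => G p.1 (p.2.map Subtype.val))

theorem mk_cstep_le {ν : Cardinal.{u}} (hν : ℵ₀ ≤ ν) (hJ : #J ≤ ν)
    (hX : #X ≤ Cardinal.lift.{u+1} ν) : #(cstep G X) ≤ Cardinal.lift.{u+1} ν := by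
  have hν' : ℵ₀ ≤ Cardinal.lift.{u+1} ν := Cardinal.aleph0_le_lift.2 hν
  refine (Cardinal.mk_union_le _ _).trans (Cardinal.add_le_of_le hν' hX ?_)
  refine Cardinal.mk_range_le.trans ?_
  rw [Cardinal.mk_prod, Cardinal.lift_id'.{u, u+1}]
  refine (Cardinal.mul_le_max _ _).trans (max_le (max_le ?_ ?_) hν')
  · simpa using hJ
  · exact (Cardinal.mk_list_le_max _).trans (max_le hν' hX)

theorem mem_cstep {T : Set Ordinal.{u}} (j : J) (l : List Ordinal.{u}) (hl : ∀ z ∈ l, z ∈ T) :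
    G j l ∈ cstep G T := by
  refine Or.inr ⟨(j, l.attach.map fun z => ⟨z.1, hl z.1 z.2⟩), ?_⟩
  simp only [List.map_map]
  congr 1
  conv_rhs => rw [← List.attach_map_subtype_val l]
  rfl

/-- cardinality of the closure -/
theorem mk_Clo_le {ν : Cardinal.{u}} (hν : ℵ₀ ≤ ν) (hJ : #J ≤ ν)
    (hX : #X ≤ Cardinal.lift.{u+1} ν) : #(Clo G X) ≤ Cardinal.lift.{u+1} ν := by
  classical
  let S : ℕ → Set Ordinal.{u} := fun n => (cstep G)^[n] X
  have hSs : ∀ n, S (n + 1) = cstep G (S n) := fun n => Function.iterate_succ_apply' _ _ _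
  have hν' : ℵ₀ ≤ Cardinal.lift.{u+1} ν := Cardinal.aleph0_le_lift.2 hν
  have hcard : ∀ n, #(S n) ≤ Cardinal.lift.{u+1} ν := by
    intro n
    induction n with
    | zero => exact hX
    | succ n ih => rw [hSs]; exact mk_cstep_le hν hJ ih
  have hmono : Monotone S := monotone_nat_of_le_succ fun n => by
    rw [hSs]; exact subset_union_left
  have hsub : Clo G X ⊆ ⋃ n, S n := by
    refine Clo_min (fun z hz => mem_iUnion.2 ⟨0, hz⟩) ?_
    intro j l hl
    have h1 : ∃ n, ∀ z ∈ l, z ∈ S n := by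
      induction l with
      | nil => exact ⟨0, by simp⟩
      | cons a l ih =>
        obtain ⟨n, hn⟩ := ih fun z hz => hl z (List.mem_cons_of_mem _ hz)
        obtain ⟨m, hm⟩ := mem_iUnion.1 (hl a List.mem_cons_self)
        refine ⟨max n m, fun z hz => ?_⟩
        rcases List.mem_cons.1 hz with rfl | hz
        · exact hmono (le_max_right _ _) hm
        · exact hmono (le_max_left _ _) (hn z hz)
    obtain ⟨n, hn⟩ := h1
    refine mem_iUnion.2 ⟨n + 1, ?_⟩
    rw [hSs]
    exact mem_cstep j l hn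
  refine (Cardinal.mk_le_mk_of_subset hsub).trans ?_
  have h2 : (⋃ n, S n) = ⋃ n : ULift.{u} ℕ, S n.down := by
    ext z
    simp only [mem_iUnion]
    constructor
    · rintro ⟨t, ht⟩
      exact ⟨⟨t⟩, ht⟩
    · rintro ⟨t, ht⟩
      exact ⟨t.down, ht⟩
  rw [h2]
  exact mk_iUnion_small' hν _ (by simpa using hν) fun n => hcard _

end clo

section chi
variable {M M' : Set Ordinal.{u}} {o : Ordinal.{u}}

theorem chi_le : chi M o ≤ o := csInf_le' fun _ _ h => h

theorem lt_chi {z : Ordinal.{u}} (hz : z ∈ M) (h : z < o) : z < chi M o :=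
  (csInf_mem (s := {y | ∀ z ∈ M, z < o → z < y}) ⟨o, fun _ _ h => h⟩) z hz h

theorem chi_le_of {y : Ordinal.{u}} (h : ∀ z ∈ M, z < o → z < y) : chi M o ≤ y := csInf_le' h

theorem exists_of_lt_chi {y : Ordinal.{u}} (h : y < chi M o) : ∃ z ∈ M, z < o ∧ y ≤ z := by
  by_contra hcon
  push Not at hcon
  exact absurd h (not_lt.2 (chi_le_of fun z hz hzo => hcon z hz hzo))

theorem chi_mono (h : M ⊆ M') : chi M o ≤ chi M' o :=
  chi_le_of fun _ hz hzo => lt_chi (h hz) hzo

theorem chi_lt {c : Cardinal.{u}} (hc : c.IsRegular) (hM : #M < Cardinal.lift.{u+1} c) :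
    chi M c.ord < c.ord := by
  classical
  have hsm : Small.{u} (M ∩ Iio c.ord : Set Ordinal.{u}) := small_subset inter_subset_right
  let T := Shrink.{u} (M ∩ Iio c.ord : Set Ordinal.{u})
  let v : T → Ordinal.{u} := fun t => ((equivShrink (M ∩ Iio c.ord : Set Ordinal.{u})).symm t).1
  have hlim : Order.IsSuccLimit c.ord := Cardinal.isSuccLimit_ord hc.1
  have hv : ∀ t, Order.succ (v t) < c.ord := fun t =>
    hlim.succ_lt ((equivShrink (M ∩ Iio c.ord : Set Ordinal.{u})).symm t).2.2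
  have hT : #T < c := by
    have h1 : Cardinal.lift.{u+1} #T ≤ #M := by
      refine (lift_mk_le_of_inj (fun t : T =>
        (⟨v t, ((equivShrink (M ∩ Iio c.ord : Set Ordinal.{u})).symm t).2.1⟩ : M)) ?_)
      intro s t h
      exact (equivShrink (M ∩ Iio c.ord : Set Ordinal.{u})).symm.injective
        (Subtype.ext (Subtype.mk.inj h))
    exact Cardinal.lift_lt.1 (h1.trans_lt hM)
  refine lt_of_le_of_lt (chi_le_of (y := ⨆ t, Order.succ (v t)) ?_)
    (Ordinal.iSup_lt_of_lt_cof (by rwa [hc.cof_ord]) hv)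
  intro z hz hzo
  have h2 : v (equivShrink (M ∩ Iio c.ord : Set Ordinal.{u}) ⟨z, hz, hzo⟩) = z := by
    simp [v]
  refine lt_of_lt_of_le (Order.lt_succ z) ?_
  have := Ordinal.le_iSup (fun t => Order.succ (v t))
    (equivShrink (M ∩ Iio c.ord : Set Ordinal.{u}) ⟨z, hz, hzo⟩)
  simpa [h2] using this

end chi

end Helper55.CP
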