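import Pool.Agent.Helper55.CP.Main

/-!
Mutual stationarity from a violation of `|pcf(a_α)| ≤ |a_α|`.  Let `α` be a limit ordinal with
`κ = |a_α| < |pcf(a_α)|`, let `n < ω` and let `θ = |α|^{+n}` be the `n`-th successor of `|α|`.

(1) For every family `F` of at most `θ` finitary operations on the ordinals there are an infinite
`A ⊆ a_α` and ordinals `δ_x < x` (`x ∈ A`) of cofinality `θ⁺` such that for all stationary sets
`S_x ⊆ δ_x` (`x ∈ A`) there is an `F`-closed set `M ⊇ θ` of `θ` ordinals with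
`sup (M ∩ x) ∈ S_x` for all `x ∈ A`.

(2) In particular, for every `F` there is an infinite `A ⊆ a_α` such that for every function `f`
from `A` to the regular cardinals `≤ θ` there is an `F`-closed `M` as in (1) with
`cf (sup (M ∩ x)) = f x` for all `x ∈ A`.

(3) If `κ^{ℵ₀} ≤ θ`, there is one infinite `A ⊆ a_α` which serves in (2) for all families `F`;
moreover, if `S_x ⊆ x` (`x ∈ A`) and, for each `x ∈ A`, `S_x` is stationary in all `δ < x` of
cofinality `θ⁺` which belong to some club of `x`, then for every `F` some `F`-closed `M` as in (1)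
has `sup (M ∩ x) ∈ S_x` for all `x ∈ A`.
-/

set_option autoImplicit false

open Cardinal Helper23.Pcf

universe u

namespace Helper55.CP.Draft

theorem result {α : Ordinal.{u}} (hα : Order.IsSuccLimit α)
    (hv : #(aSet α) < #(pcf (aSet α))) (n : ℕ) (θ : Cardinal.{u})
    (hθ : θ = Order.succ^[n] α.card) :
    -- (1)
    (∀ (I : Type u) (F : I → List Ordinal.{u} → Ordinal.{u}), #I ≤ θ →
      ∃ A ⊆ aSet α, A.Infinite ∧ ∃ δ : Cardinal.{u} → Ordinal.{u},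
        (∀ x ∈ A, δ x < x.ord ∧ (δ x).cof = Order.succ θ) ∧
        ∀ S : Cardinal.{u} → Set Ordinal.{u}, (∀ x ∈ A, StatIn (S x) (δ x)) →
          ∃ M : Set Ordinal.{u}, (∀ i l, (∀ z ∈ l, z ∈ M) → F i l ∈ M) ∧
            Set.Iio θ.ord ⊆ M ∧ #M ≤ Cardinal.lift.{u + 1} θ ∧
            ∀ x ∈ A, ∃ s ∈ S x, s < δ x ∧ IsLUB (M ∩ Set.Iio x.ord) s) ∧
    -- (2)
    (∀ (I : Type u) (F : I → List Ordinal.{u} → Ordinal.{u}), #I ≤ θ →
      ∃ A ⊆ aSet α, A.Infinite ∧ ∀ f : Cardinal.{u} → Cardinal.{u},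
        (∀ x ∈ A, (f x).IsRegular ∧ f x ≤ θ) →
          ∃ M : Set Ordinal.{u}, (∀ i l, (∀ z ∈ l, z ∈ M) → F i l ∈ M) ∧
            Set.Iio θ.ord ⊆ M ∧ #M ≤ Cardinal.lift.{u + 1} θ ∧
            ∀ x ∈ A, ∃ s < x.ord, s.cof = f x ∧ IsLUB (M ∩ Set.Iio x.ord) s) ∧
    -- (3)
    (#(aSet α) ^ ℵ₀ ≤ Cardinal.lift.{u + 1} θ →
      ∃ A ⊆ aSet α, A.Infinite ∧
        (∀ f : Cardinal.{u} → Cardinal.{u}, (∀ x ∈ A, (f x).IsRegular ∧ f x ≤ θ) →
          ∀ (I : Type u) (F : I → List Ordinal.{u} → Ordinal.{u}), #I ≤ θ →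
          ∃ M : Set Ordinal.{u}, (∀ i l, (∀ z ∈ l, z ∈ M) → F i l ∈ M) ∧
            Set.Iio θ.ord ⊆ M ∧ #M ≤ Cardinal.lift.{u + 1} θ ∧
            ∀ x ∈ A, ∃ s < x.ord, s.cof = f x ∧ IsLUB (M ∩ Set.Iio x.ord) s) ∧
        ∀ S : Cardinal.{u} → Set Ordinal.{u},
        (∀ x ∈ A, ∃ C, ClubIn C x.ord ∧ ∀ δ ∈ C, δ < x.ord → δ.cof = Order.succ θ →
          StatIn (S x) δ) →
        ∀ (I : Type u) (F : I → List Ordinal.{u} → Ordinal.{u}), #I ≤ θ →
          ∃ M : Set Ordinal.{u}, (∀ i l, (∀ z ∈ l, z ∈ M) → F i l ∈ M) ∧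
            Set.Iio θ.ord ⊆ M ∧ #M ≤ Cardinal.lift.{u + 1} θ ∧
            ∀ x ∈ A, ∃ s ∈ S x, s < x.ord ∧ IsLUB (M ∩ Set.Iio x.ord) s) := by
  have h : Order.succ^[n] α.card = succN α.card n := by
    clear hθ
    induction n with
    | zero => rfl
    | succ n ih => rw [Function.iterate_succ_apply', ih]; rfl
  rw [h] at hθ
  subst hθ
  exact ⟨fun I F hI => Helper55.CP.main_one hα hv n hI F,
    fun I F hI => Helper55.CP.main_cof hα hv n hI F,
    fun hpow => Helper55.CP.main_all_cof hα hv n hpow⟩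

end Helper55.CP.Draft
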