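import Pool.Agent.Helper55.CP.Ctx

/-! First facts on chains: suprema, smallness. -/

set_option autoImplicit false

open Cardinal Ordinal Set Filter Helper23.Pcf

universe u

namespace Helper55.CP

theorem scales_exist (T : Data.{u}) : Nonempty (Scales T) := by
  classical
  have h : ∀ q, ∃ f : Ordinal.{u} → T.P → Ordinal.{u},
      (∀ ξ < (T.c (T.lam q)).ord, dlt (T.D q) (f ξ) (fun p => (T.c p).ord)) ∧
      (∀ ξ η, ξ < η → η < (T.c (T.lam q)).ord → dlt (T.D q) (f ξ) (f η)) ∧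
      ∀ g, dlt (T.D q) g (fun p => (T.c p).ord) → ∃ ξ < (T.c (T.lam q)).ord,
        dlt (T.D q) g (f ξ) := fun q => (T.cof q).exists_scale
  choose f h1 h2 h3 using h
  have hpos : ∀ p, 0 < (T.c p).ord := fun p => (Cardinal.isSuccLimit_ord (T.reg p).1).bot_lt
  have hev : ∀ q, ∀ ξ < (T.c (T.lam q)).ord, ∀ᶠ p in T.D q,
      (if f q ξ p < (T.c p).ord then f q ξ p else 0) = f q ξ p := by
    intro q ξ hξ
    filter_upwards [h1 q ξ hξ] with p hp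
    rw [if_pos hp]
  refine ⟨⟨fun q ξ p => if f q ξ p < (T.c p).ord then f q ξ p else 0, ?_, ?_, ?_⟩⟩
  · intro q ξ p
    split_ifs with h
    · exact h
    · exact hpos p
  · intro q ξ η hξη hη
    filter_upwards [h2 q ξ η hξη hη, hev q ξ (hξη.trans hη), hev q η hη] with p g1 g2 g3
    rw [g2, g3]; exact g1
  · intro q g hg
    obtain ⟨ξ, hξ, h4⟩ := h3 q g hg
    refine ⟨ξ, hξ, ?_⟩
    filter_upwards [h4, hev q ξ hξ] with p g1 g2
    rw [g2]; exact g1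

section facts
variable {T : Data.{u}} {S : Scales T} {J : Type u} {G : J → List Ordinal.{u} → Ordinal.{u}}
  {B : Set Ordinal.{u}} {N : Ordinal.{u} → Set Ordinal.{u}}

theorem Chain.list_mem (h : Chain T S G B N) {ε : Ordinal.{u}} (hε : Order.IsSuccLimit ε)
    (l : List Ordinal.{u}) (hl : ∀ z ∈ l, z ∈ N ε) : ∃ η < ε, ∀ z ∈ l, z ∈ N η := by
  induction l with
  | nil => exact ⟨0, hε.bot_lt, by simp⟩
  | cons a l ih =>
    obtain ⟨η, hη, h1⟩ := ih fun z hz => hl z (List.mem_cons_of_mem _ hz)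
    obtain ⟨η', hη', h2⟩ := h.lim ε hε a (hl a List.mem_cons_self)
    refine ⟨max η η', max_lt hη hη', fun z hz => ?_⟩
    rcases List.mem_cons.1 hz with rfl | hz
    · exact h.mono _ _ (le_max_right _ _) h2
    · exact h.mono _ _ (le_max_left _ _) (h1 z hz)

theorem Chain.closed (h : Chain T S G B N) {ε : Ordinal.{u}} (hε : Order.IsSuccLimit ε)
    (hεμ : ε < (Order.succ T.μ).ord) : ClosedUnder G (N ε) := by
  intro j l hl
  obtain ⟨η, hη, h1⟩ := h.list_mem hε l hl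
  exact h.op η ε hη hεμ j l h1

theorem Chain.chi_lt (h : Chain T S G B N) {ε : Ordinal.{u}}
    (hεμ : ε < (Order.succ T.μ).ord) (p : T.P) :
    Helper55.CP.chi (N ε) (T.c p).ord < (T.c p).ord :=
  Helper55.CP.chi_lt (T.reg p) ((h.card ε hεμ).trans_lt (Cardinal.lift_lt.2 (T.hμc p)))

theorem Chain.chi_strict (h : Chain T S G B N) {η ε : Ordinal.{u}} (hη : η < ε)
    (hεμ : ε < (Order.succ T.μ).ord) (p : T.P) :
    Helper55.CP.chi (N η) (T.c p).ord < Helper55.CP.chi (N ε) (T.c p).ord :=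
  lt_chi (h.chi η ε hη hεμ p) (h.chi_lt (hη.trans hεμ) p)

theorem Chain.chi_mono (h : Chain T S G B N) {η ε : Ordinal.{u}} (hη : η ≤ ε) (o : Ordinal.{u}) :
    Helper55.CP.chi (N η) o ≤ Helper55.CP.chi (N ε) o :=
  Helper55.CP.chi_mono (h.mono _ _ hη)

theorem Chain.chi_cont (h : Chain T S G B N) {ε : Ordinal.{u}} (hε : Order.IsSuccLimit ε)
    {o x : Ordinal.{u}} (hx : x < Helper55.CP.chi (N ε) o) :
    ∃ η < ε, x < Helper55.CP.chi (N η) o := by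
  obtain ⟨z, hz, hzo, hxz⟩ := exists_of_lt_chi hx
  obtain ⟨η, hη, h1⟩ := h.lim ε hε z hz
  exact ⟨η, hη, hxz.trans_lt (lt_chi h1 hzo)⟩

theorem Chain.chi_cof (h : Chain T S G B N) {ε : Ordinal.{u}} (hε : Order.IsSuccLimit ε)
    (hεμ : ε < (Order.succ T.μ).ord) (p : T.P) :
    (Helper55.CP.chi (N ε) (T.c p).ord).cof = ε.cof := by
  have hmono : StrictMono (fun i : Iio ε => Helper55.CP.chi (N i.1) (T.c p).ord) :=
    fun i j hij => h.chi_strict hij (lt_trans j.2 hεμ) p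
  have h1 : ⨆ i : Iio ε, Helper55.CP.chi (N i.1) (T.c p).ord =
      Helper55.CP.chi (N ε) (T.c p).ord := by
    apply le_antisymm
    · exact Ordinal.iSup_le fun i => (h.chi_mono (le_of_lt i.2) _)
    · apply le_of_forall_lt
      intro x hx
      obtain ⟨j, hj, hxj⟩ := h.chi_cont hε hx
      exact lt_of_lt_of_le hxj
        (Ordinal.le_iSup (fun i : Iio ε => Helper55.CP.chi (N i.1) (T.c p).ord) ⟨j, hj⟩)
  rw [← h1]
  exact Ordinal.cof_iSup_Iio hmono hε.isSuccPrelimit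

theorem limit_of_cof {T : Data.{u}} {ε : Ordinal.{u}} (hε : T.κ < ε.cof) :
    Order.IsSuccLimit ε :=
  Ordinal.one_lt_cof_iff.1 (one_lt_aleph0.trans_le (T.hκ.trans hε.le))

/-- generators from the union of the chain -/
theorem Chain.clo_lim (h : Chain T S G B N) {ε : Ordinal.{u}} (hε : Order.IsSuccLimit ε)
    {Y : Set Ordinal.{u}} {z : Ordinal.{u}} (hz : z ∈ Clo G (N ε ∪ Y)) :
    ∃ η < ε, z ∈ Clo G (N η ∪ Y) := by
  have : Nonempty (Iio ε) := ⟨⟨0, hε.bot_lt⟩⟩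
  have h1 : N ε ∪ Y ⊆ ⋃ i : Iio ε, (N i.1 ∪ Y) := by
    rintro x (hx | hx)
    · obtain ⟨η, hη, h2⟩ := h.lim ε hε x hx
      exact mem_iUnion.2 ⟨⟨η, hη⟩, Or.inl h2⟩
    · exact mem_iUnion.2 ⟨⟨0, hε.bot_lt⟩, Or.inr hx⟩
  obtain ⟨i, hi⟩ := Clo_directed (fun i : Iio ε => N i.1 ∪ Y) (fun i j => by
    rcases le_total i j with hij | hij
    · exact ⟨j, union_subset_union_left _ (h.mono _ _ hij), subset_rfl⟩
    · exact ⟨i, subset_rfl, union_subset_union_left _ (h.mono _ _ hij)⟩) (Clo_mono h1 hz)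
  exact ⟨i.1, i.2, hi⟩

/-- a common stage for at most `κ` points -/
theorem common_stage {T : Data.{u}} {ε : Ordinal.{u}} (hε : T.κ < ε.cof) (q : T.Q)
    (η : T.P → Ordinal.{u}) (hη : ∀ p ∈ T.X q, η p < ε) : ∃ η' < ε, ∀ p ∈ T.X q, η p ≤ η' := by
  refine ⟨⨆ p : T.X q, η p.1, Ordinal.iSup_lt_of_lt_cof ((T.hXκ q).trans_lt hε)
    (fun p => hη p.1 p.2), fun p hp => ?_⟩
  exact Ordinal.le_iSup (fun p : T.X q => η p.1) ⟨p, hp⟩

/-- SMALLNESS -/
theorem Chain.small (h : Chain T S G B N) {ε : Ordinal.{u}} (hε : T.κ < ε.cof)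
    (hεμ : ε < (Order.succ T.μ).ord) {q : T.Q} {p' : T.P} (hp : T.c p' < T.c (T.lam q))
    {l : List Ordinal.{u}} (hl : ∀ z ∈ l, z < (T.c p').ord) :
    ¬ ∀ᶠ p in T.D q, ∃ z ∈ Clo G (N ε ∪ ls l),
      Helper55.CP.chi (N ε) (T.c p).ord ≤ z ∧ z < (T.c p).ord := by
  classical
  intro hbad
  have hlim := limit_of_cof hε
  have h1 : ∀ p, ∃ (z η : Ordinal.{u}), η < ε ∧
      ((∃ z ∈ Clo G (N ε ∪ ls l), Helper55.CP.chi (N ε) (T.c p).ord ≤ z ∧ z < (T.c p).ord) →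
        z ∈ Clo G (N η ∪ ls l) ∧ Helper55.CP.chi (N ε) (T.c p).ord ≤ z ∧ z < (T.c p).ord) := by
    intro p
    by_cases hb : ∃ z ∈ Clo G (N ε ∪ ls l), Helper55.CP.chi (N ε) (T.c p).ord ≤ z ∧
        z < (T.c p).ord
    · obtain ⟨z, hz, h2, h3⟩ := hb
      obtain ⟨η, hη, h4⟩ := h.clo_lim hlim hz
      exact ⟨z, η, hη, fun _ => ⟨h4, h2, h3⟩⟩
    · exact ⟨0, 0, hlim.bot_lt, fun h => absurd h hb⟩
  choose z η hη h2 using h1
  obtain ⟨η', hη', h3⟩ := common_stage hε q η fun p _ => hη p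
  obtain ⟨g, hg, hg'⟩ := h.bd η' ε hη' hεμ q p' hp
  obtain ⟨p, hb, hX, hgp⟩ := ((hbad.and (T.hX q)).and (hg' l hl)).exists |> fun ⟨p, h⟩ =>
    (⟨p, h.1.1, h.1.2, h.2⟩ : ∃ p, (∃ z ∈ Clo G (N ε ∪ ls l),
      Helper55.CP.chi (N ε) (T.c p).ord ≤ z ∧ z < (T.c p).ord) ∧ p ∈ T.X q ∧
      ∀ z ∈ Clo G (N η' ∪ ls l), z < (T.c p).ord → z < g p)
  obtain ⟨h4, h5, h6⟩ := h2 p hb
  have h7 : z p < g p := hgp _ (Clo_mono (union_subset_union_left _ (h.mono _ _ (h3 p hX))) h4) h6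
  exact absurd (h7.trans (lt_chi (hg p).1 (hg p).2)) (not_lt.2 h5)

end facts

end Helper55.CP
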