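import Pool.Agent.Helper55.CP.Patterns
import Pool.Agent.Helper15.CP.Data
import Pool.Agent.Helper19.CP.Stat
import Pool.Agent.Helper85.Refl.Cor

/-! The theorem on mutual stationarity. -/

set_option autoImplicit false

open Cardinal Ordinal Set Filter Helper23.Pcf Helper85.Refl

universe u

namespace Helper55.CP

theorem mk_range_small {ι : Type u} {ν : Cardinal.{u}} (h : #ι ≤ ν) (f : ι → Ordinal.{u}) :
    #(range f) ≤ Cardinal.lift.{u+1} ν := step_mk_range h f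

theorem succN_aleph (y : Ordinal.{u}) (n : ℕ) : succN (ℵ_ y) n = ℵ_ (y + n) := by
  induction n with
  | zero => simp [succN]
  | succ n ih => rw [succN_succ, ih, Nat.cast_succ, ← add_assoc, Cardinal.succ_aleph]

/-- one algebra -/
theorem main_one {α : Ordinal.{u}} (hα : Order.IsSuccLimit α) (hv : #(aSet α) < #(pcf (aSet α)))
    (n : ℕ) {I : Type u} (hI : #I ≤ succN α.card n) (F : I → List Ordinal.{u} → Ordinal.{u}) :
    ∃ A ⊆ aSet α, A.Infinite ∧ ∃ δ : Cardinal.{u} → Ordinal.{u},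
      (∀ x ∈ A, δ x < x.ord ∧ (δ x).cof = Order.succ (succN α.card n)) ∧
      ∀ S : Cardinal.{u} → Set Ordinal.{u}, (∀ x ∈ A, StatIn (S x) (δ x)) →
        ∃ M : Set Ordinal.{u}, (∀ i l, (∀ z ∈ l, z ∈ M) → F i l ∈ M) ∧
          Iio (succN α.card n).ord ⊆ M ∧ #M ≤ Cardinal.lift.{u+1} (succN α.card n) ∧
          ∀ x ∈ A, ∃ s ∈ S x, s < δ x ∧ IsLUB (M ∩ Iio x.ord) s := by
  classical
  have hne : (aSet α).Nonempty := by
    by_contra hcon
    rw [Set.not_nonempty_iff_eq_empty] at hcon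
    rw [pcf_aSet, hcon, pcfS_empty] at hv
    exact lt_irrefl _ hv
  obtain ⟨γ, hγ, hγα, hA, hAc, h0, hκγ⟩ := setup' hα hne
  set κ := (α - γ).card with hκ
  set θ := succN α.card n with hθ
  have hθ' : θ = ℵ_ (γ + n) := by rw [hθ, hγ, succN_aleph]
  have hθ0 : ℵ₀ ≤ θ := by rw [hθ']; exact Cardinal.aleph0_le_aleph _
  have hv' : Cardinal.lift.{u+1} κ < #(pcfS (aSet α)) := by rw [← pcf_aSet, ← hAc]; exact hv
  obtain ⟨T, H, hTκ, hTμ, hTa⟩ := data_exists h0 hα hγ hγα rfl hv' (n + 2) (by omega)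
  have hms : T.μ.IsRegular := by
    rw [hTμ, show ((n + 2 : ℕ) : Ordinal.{u}) = ((n + 1 : ℕ) : Ordinal.{u}) + 1 from by
      push_cast; rw [add_assoc]; norm_num, ← add_assoc]
    exact isRegular_aleph_add_one _
  have hθμ' : Order.succ θ < T.μ := by
    rw [hθ', hTμ, Cardinal.succ_aleph, Cardinal.aleph_lt_aleph, add_assoc,
      add_lt_add_iff_left]
    have : ((n : ℕ) : Ordinal.{u}) + 1 = ((n + 1 : ℕ) : Ordinal.{u}) := by push_cast; rfl
    rw [this, Nat.cast_lt]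
    omega
  have hθμ : θ ≤ T.μ := (Order.le_succ θ).trans hθμ'.le
  have hκμ' : Order.succ T.κ < T.μ := by
    refine lt_of_le_of_lt (Order.succ_le_succ ?_) hθμ'
    rw [hTκ, hθ']
    exact hκγ.trans (Cardinal.aleph_le_aleph.2 le_self_add)
  have hσreg : (Order.succ θ).IsRegular := Cardinal.isRegular_succ hθ0
  obtain ⟨x, v, C, hxa, hxlt, hC, hv1, hv2, hv3, hM⟩ := patterns' T H hms hκμ' le_rfl hσreg
    (hθ0.trans_lt (Order.lt_succ θ)) hθμ' (hI.trans hθμ) F (Iio θ.ord) (by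
      rw [Cardinal.mk_Iio_ordinal, Cardinal.card_ord]
      exact Cardinal.lift_le.2 hθμ)
  have hcx : ∀ n, T.c (x n) ∈ aSet α := by
    intro m
    have : T.c (x m) ∈ T.c '' H.a := ⟨_, hxa m, rfl⟩
    rw [hTa] at this
    rw [hA]
    exact ⟨this.1, lt_of_le_of_lt (Cardinal.aleph_le_aleph.2 le_self_add) this.2.1, this.2.2⟩
  have hxinj : Function.Injective (fun n => T.c (x n)) :=
    (strictMono_nat_of_lt_succ fun n => hxlt _ _ (Nat.lt_succ_self n)).injective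
  have hidx : ∀ m, Function.invFun (fun n => T.c (x n)) (T.c (x m)) = m :=
    fun m => Function.leftInverse_invFun hxinj m
  have hσlim : Order.IsSuccLimit (Order.succ θ).ord := Cardinal.isSuccLimit_ord hσreg.1
  have hσcof : (Order.succ θ).ord.cof = Order.succ θ := hσreg.cof_ord
  have hσ0 : ℵ₀ < (Order.succ θ).ord.cof := by
    rw [hσcof]; exact hθ0.trans_lt (Order.lt_succ θ)
  refine ⟨range (fun n => T.c (x n)), ?_, Set.infinite_range_of_injective hxinj,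
    fun c => v (Function.invFun (fun n => T.c (x n)) c) (Order.succ θ).ord, ?_, ?_⟩
  · rintro _ ⟨m, rfl⟩
    exact hcx m
  · rintro _ ⟨m, rfl⟩
    show v (Function.invFun (fun n => T.c (x n)) (T.c (x m))) (Order.succ θ).ord <
      (T.c (x m)).ord ∧
      (v (Function.invFun (fun n => T.c (x n)) (T.c (x m))) (Order.succ θ).ord).cof = _
    rw [hidx m]
    exact ⟨hv2 m, by rw [(hv3 m _ le_rfl hσlim).2, hσcof]⟩
  · intro S hS
    have hS' : ∀ m, StatIn (S (T.c (x m))) (v m (Order.succ θ).ord) := by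
      intro m
      have h1 := hS _ ⟨m, rfl⟩
      have h2 : v (Function.invFun (fun n => T.c (x n)) (T.c (x m))) (Order.succ θ).ord =
        v m (Order.succ θ).ord := by rw [hidx m]
      exact h2 ▸ h1
    have hi : ∀ m, ∃ i ∈ {i | UnbIn C i} ∩ (C ∩ Ioi 0), i < (Order.succ θ).ord ∧
        v m i ∈ S (T.c (x m)) := fun m =>
      Helper19.CP.stat_pull hσ0 (v m) (fun i j hij hj => hv1 m i j hij hj.le)
        (fun i hi hlim => (hv3 m i hi.le hlim).1) (fun i hi => hv1 m i _ hi le_rfl)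
        (fun y hy => (hv3 m _ le_rfl hσlim).1 y hy) (hS' m)
        (club_inter hσ0 (Helper85.Refl.club_acc hσ0 hC.unb)
          (club_inter hσ0 hC (club_Ioi hσlim hσlim.bot_lt)))
    choose i hi1 hi2 hi3 using hi
    have hiunb : ∀ m, UnbIn C (i m) := fun m => (hi1 m).1
    have hicard : ∀ m, (i m).card ≤ θ := fun m => by
      have := Cardinal.lt_ord.1 (hi2 m)
      exact Order.lt_succ_iff.1 this
    let K : ℕ → Set Ordinal.{u} := fun m => C ∩ Iio (i m)
    have hK := fun m => Helper19.CP.block_exists (hiunb m) (hicard m)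
    refine ⟨Clo F (Iio θ.ord ∪ ⋃ m, v m '' K m), Clo_closed,
      subset_union_left.trans subset_Clo, ?_, ?_⟩
    · refine mk_Clo_le hθ0 hI ?_
      have hθl : ℵ₀ ≤ Cardinal.lift.{u+1} θ := Cardinal.aleph0_le_lift.2 hθ0
      refine (Cardinal.mk_union_le _ _).trans (Cardinal.add_le_of_le hθl ?_ ?_)
      · rw [Cardinal.mk_Iio_ordinal, Cardinal.card_ord]
      · have h2 : (⋃ m, v m '' K m) = ⋃ m : ULift.{u} ℕ, v m.down '' K m.down := by
          ext z
          simp only [mem_iUnion]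
          constructor
          · rintro ⟨t, ht⟩
            exact ⟨⟨t⟩, ht⟩
          · rintro ⟨t, ht⟩
            exact ⟨t.down, ht⟩
        rw [h2]
        refine mk_iUnion_small' hθ0 _ (by simpa using hθ0) fun m => ?_
        exact Cardinal.mk_image_le.trans (hK m.down).2.2.2
    · rintro _ ⟨m, rfl⟩
      have h1 := hM K i (fun m => ⟨(hi1 m).2.1, hi2 m, (hiunb m).isSuccLimit (hi1 m).2.2,
        (hK m).1, (hK m).2.1, (hK m).2.2.1⟩) m
      refine ⟨v m (i m), hi3 m, ?_, h1⟩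
      show v m (i m) < v (Function.invFun (fun n => T.c (x n)) (T.c (x m))) (Order.succ θ).ord
      rw [hidx m]
      exact hv1 m _ _ (hi2 m) le_rfl

/-- one set for all algebras -/
theorem main_all {α : Ordinal.{u}} (hα : Order.IsSuccLimit α) (hv : #(aSet α) < #(pcf (aSet α)))
    (n : ℕ) (hpow : #(aSet α) ^ ℵ₀ ≤ Cardinal.lift.{u+1} (succN α.card n)) :
    ∃ A ⊆ aSet α, A.Infinite ∧ ∀ S : Cardinal.{u} → Set Ordinal.{u},
      (∀ x ∈ A, ∃ C, ClubIn C x.ord ∧ ∀ δ ∈ C, δ < x.ord →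
        δ.cof = Order.succ (succN α.card n) → StatIn (S x) δ) →
      ∀ (I : Type u) (F : I → List Ordinal.{u} → Ordinal.{u}), #I ≤ succN α.card n →
        ∃ M : Set Ordinal.{u}, (∀ i l, (∀ z ∈ l, z ∈ M) → F i l ∈ M) ∧
          Iio (succN α.card n).ord ⊆ M ∧ #M ≤ Cardinal.lift.{u+1} (succN α.card n) ∧
          ∀ x ∈ A, ∃ s ∈ S x, s < x.ord ∧ IsLUB (M ∩ Iio x.ord) s := by
  classical
  by_contra hcon
  push Not at hcon
  set θ := succN α.card n with hθ
  have hα0 : ℵ₀ ≤ α.card := by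
    rw [Ordinal.aleph0_le_card]
    exact Ordinal.omega0_le_of_isSuccLimit hα
  have hθ0 : ℵ₀ ≤ θ := hα0.trans (le_succN _ _)
  have hθl : ℵ₀ ≤ Cardinal.lift.{u+1} θ := Cardinal.aleph0_le_lift.2 hθ0
  obtain ⟨A₀, hA₀, hA₀inf, -⟩ := main_one hα hv n (I := PEmpty.{u+1}) (by simp)
    (fun i _ => i.elim)
  have hsm : Small.{u} (aSet α) := Cardinal.small_iff_lift_mk_lt_univ.2 (by
    refine lt_of_le_of_lt ?_ (Cardinal.lift_lt_univ θ)
    have h1 : #(aSet α) ≤ #(aSet α) ^ ℵ₀ := by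
      conv_lhs => rw [← Cardinal.power_one #(aSet α)]
      refine Cardinal.power_le_power_left ?_ Cardinal.one_le_aleph0
      rw [Cardinal.mk_ne_zero_iff]
      obtain ⟨y, hy⟩ := hA₀inf.nonempty
      exact ⟨⟨y, hA₀ hy⟩⟩
    simpa using h1.trans hpow)
  let V := Shrink.{u} (aSet α)
  let val : V → Cardinal.{u} := fun t => ((equivShrink (aSet α)).symm t).1
  have hvalmem : ∀ t, val t ∈ aSet α := fun t => ((equivShrink (aSet α)).symm t).2
  have hV : #V ^ ℵ₀ ≤ θ := by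
    have h2 : Cardinal.lift.{u+1} #V = #(aSet α) := by
      have := Cardinal.lift_mk_shrink'.{u+1, u} (aSet α)
      rw [this, Cardinal.lift_id'.{u, u+1}]
    rw [← Cardinal.lift_le.{u+1}, Cardinal.lift_power, h2]
    simpa using hpow
  let 𝒮 := {g : ℕ → V // Function.Injective g}
  have hW : #𝒮 ≤ θ := by
    refine (Cardinal.mk_subtype_le _).trans ?_
    simpa using hV
  let AA : 𝒮 → Set Cardinal.{u} := fun w => range fun m => val (w.1 m)
  have h3 : ∀ w : 𝒮, ∃ (S C : Cardinal.{u} → Set Ordinal.{u}) (I : Type u)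
      (F : I → List Ordinal.{u} → Ordinal.{u}), #I ≤ θ ∧
      (∀ x ∈ AA w, ClubIn (C x) x.ord ∧ ∀ δ ∈ C x, δ < x.ord → δ.cof = Order.succ θ →
        StatIn (S x) δ) ∧
      ∀ M : Set Ordinal.{u}, (∀ i l, (∀ z ∈ l, z ∈ M) → F i l ∈ M) → Iio θ.ord ⊆ M →
        #M ≤ Cardinal.lift.{u+1} θ →
        ∃ x ∈ AA w, ∀ s ∈ S x, s < x.ord → ¬ IsLUB (M ∩ Iio x.ord) s := by
    intro w
    obtain ⟨S, hS, I, F, hI, hM⟩ := hcon (AA w) (by
      rintro _ ⟨m, rfl⟩
      exact hvalmem _) (Set.infinite_range_of_injective (f := fun m => val (w.1 m))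
        fun m m' h => w.2 ((equivShrink (aSet α)).symm.injective (Subtype.ext h)))
    choose C hC using hS
    refine ⟨S, fun x => if h : x ∈ AA w then C x h else ∅, I, F, hI, ?_, hM⟩
    intro x hx
    simp only [dif_pos hx]
    exact hC x hx
  choose S C I F hI hS hM using h3
  have hJ1 : #(Σ w : 𝒮, I w) ≤ θ := by
    rw [Cardinal.mk_sigma]
    refine (Cardinal.sum_le_mk_mul_iSup _).trans ?_
    exact Cardinal.mul_le_of_le hθ0 hW (ciSup_le' hI)
  have hVθ : #V ≤ θ := by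
    refine le_trans ?_ hV
    conv_lhs => rw [← Cardinal.power_one #V]
    refine Cardinal.power_le_power_left ?_ Cardinal.one_le_aleph0
    rw [Cardinal.mk_ne_zero_iff]
    obtain ⟨y, hy⟩ := hA₀inf.nonempty
    exact ⟨equivShrink _ ⟨y, hA₀ hy⟩⟩
  have hJ : #((Σ w : 𝒮, I w) ⊕ (𝒮 × V)) ≤ θ := by
    simp only [Cardinal.mk_sum, Cardinal.mk_prod, Cardinal.lift_id]
    exact Cardinal.add_le_of_le hθ0 hJ1 (Cardinal.mul_le_of_le hθ0 hW hVθ)
  -- the next functions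
  have hnx : ∀ (w : 𝒮) (t : V) (y : Ordinal.{u}), ∃ z, val t ∈ AA w → y < (val t).ord →
      z ∈ C w (val t) ∧ y < z ∧ z < (val t).ord := by
    intro w t y
    by_cases h : val t ∈ AA w ∧ y < (val t).ord
    · obtain ⟨z, h1, h2, h4⟩ := (hS w _ h.1).1.unb y h.2
      exact ⟨z, fun _ _ => ⟨h1, h2, h4⟩⟩
    · exact ⟨0, fun h1 h2 => absurd ⟨h1, h2⟩ h⟩
  choose nx hnx using hnx
  obtain ⟨A, hA, hAinf, δ, hδ, hδS⟩ := main_one hα hv n hJ
    (fun j l => match j with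
      | .inl j => F j.1 j.2 l
      | .inr wt => nx wt.1 wt.2 (l.headD 0))
  let w : 𝒮 := ⟨fun m => equivShrink (aSet α) ⟨(hAinf.natEmbedding A m : Cardinal.{u}),
    hA (hAinf.natEmbedding A m).2⟩, fun m m' h => by
      have h1 := (equivShrink (aSet α)).injective h
      exact (hAinf.natEmbedding A).injective (Subtype.ext (Subtype.mk.inj h1))⟩
  have hAw : AA w ⊆ A := by
    rintro _ ⟨m, rfl⟩
    have : val (w.1 m) = (hAinf.natEmbedding A m : Cardinal.{u}) := by simp [val, w]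
    show val (w.1 m) ∈ A
    rw [this]
    exact (hAinf.natEmbedding A m).2
  have hδlim : ∀ x ∈ A, Order.IsSuccLimit (δ x) := fun x hx => by
    rw [← Ordinal.one_lt_cof_iff, (hδ x hx).2]
    exact one_lt_aleph0.trans_le (hθ0.trans (Order.le_succ θ))
  have huniv : ∀ x ∈ A, StatIn univ (δ x) := fun x hx D hD => by
    obtain ⟨z, h1, _, h2⟩ := hD.unb 0 (hδlim x hx).bot_lt
    exact ⟨z, trivial, h1, h2⟩
  -- the points `δ x` belong to the clubs
  have hmem : ∀ x ∈ AA w, δ x ∈ C w x := by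
    intro x hx
    have hxA := hAw hx
    obtain ⟨m, hm⟩ := hx
    have hx : x ∈ AA w := ⟨m, hm⟩
    refine (hS w x hx).1.cl _ (hδ x hxA).1 (hδlim x hxA).bot_lt ?_
    intro z hz
    obtain ⟨M, hM1, hM2, hM3, hM4⟩ := hδS (fun y => if y = x then Ioi z else univ) (by
      intro y hy
      by_cases hyx : y = x
      · subst hyx
        simp only [if_true]
        intro D hD
        obtain ⟨t, h1, h2, h4⟩ := hD.unb z hz
        exact ⟨t, h2, h1, h4⟩
      · simp only [if_neg hyx]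
        exact huniv y hy)
    obtain ⟨s, hs1, hs2, hs3⟩ := hM4 x hxA
    simp only [if_true] at hs1
    have h4 : ∃ t ∈ M ∩ Iio x.ord, z < t := by
      by_contra hc
      push Not at hc
      exact absurd (hs3.2 (show z ∈ upperBounds (M ∩ Iio x.ord) from hc)) (not_le.2 hs1)
    obtain ⟨t, ⟨ht1, ht2⟩, ht3⟩ := h4
    have hm' : val (w.1 m) = x := hm
    have h5 := hnx w (w.1 m) t (by rw [hm']; exact hx) (by rw [hm']; exact ht2)
    rw [hm'] at h5
    have h6 : nx w (w.1 m) t ∈ M := hM1 (.inr (w, w.1 m)) [t] (by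
      intro y hy
      rw [List.mem_singleton] at hy
      rw [hy]; exact ht1)
    exact ⟨_, h5.1, ht3.trans h5.2.1, (hs3.1 ⟨h6, h5.2.2⟩).trans_lt hs2⟩
  obtain ⟨M, hM1, hM2, hM3, hM4⟩ := hδS (fun y => if y ∈ AA w then S w y else univ) (by
    intro y hy
    by_cases hyw : y ∈ AA w
    · simp only [if_pos hyw]
      exact (hS w y hyw).2 _ (hmem y hyw) (hδ y hy).1 (hδ y hy).2
    · simp only [if_neg hyw]
      exact huniv y hy)
  obtain ⟨x, hx, h4⟩ := hM w M (fun i l hl => hM1 (.inl ⟨w, i⟩) l hl) hM2 hM3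
  obtain ⟨s, hs1, hs2, hs3⟩ := hM4 x (hAw hx)
  simp only [if_pos hx] at hs1
  exact h4 s hs1 (hs2.trans (hδ x (hAw hx)).1) hs3

/-- patterns of cofinalities -/
theorem main_cof {α : Ordinal.{u}} (hα : Order.IsSuccLimit α) (hv : #(aSet α) < #(pcf (aSet α)))
    (n : ℕ) {I : Type u} (hI : #I ≤ succN α.card n) (F : I → List Ordinal.{u} → Ordinal.{u}) :
    ∃ A ⊆ aSet α, A.Infinite ∧ ∀ f : Cardinal.{u} → Cardinal.{u},
      (∀ x ∈ A, (f x).IsRegular ∧ f x ≤ succN α.card n) →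
        ∃ M : Set Ordinal.{u}, (∀ i l, (∀ z ∈ l, z ∈ M) → F i l ∈ M) ∧
          Iio (succN α.card n).ord ⊆ M ∧ #M ≤ Cardinal.lift.{u+1} (succN α.card n) ∧
          ∀ x ∈ A, ∃ s < x.ord, s.cof = f x ∧ IsLUB (M ∩ Iio x.ord) s := by
  obtain ⟨A, hA, hAinf, δ, hδ, hS⟩ := main_one hα hv n hI F
  refine ⟨A, hA, hAinf, fun f hf => ?_⟩
  obtain ⟨M, hM1, hM2, hM3, hM4⟩ := hS (fun x => {y | y.cof = f x}) fun x hx =>
    Helper19.CP.stat_cof (hf x hx).1 (by
      rw [(hδ x hx).2]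
      exact Order.lt_succ_iff.2 (hf x hx).2)
  refine ⟨M, hM1, hM2, hM3, fun x hx => ?_⟩
  obtain ⟨s, h1, h2, h3⟩ := hM4 x hx
  exact ⟨s, h2.trans (hδ x hx).1, h1, h3⟩

/-- one set for all algebras: reflecting sets, and in particular all patterns of cofinalities -/
theorem main_all_cof {α : Ordinal.{u}} (hα : Order.IsSuccLimit α)
    (hv : #(aSet α) < #(pcf (aSet α)))
    (n : ℕ) (hpow : #(aSet α) ^ ℵ₀ ≤ Cardinal.lift.{u+1} (succN α.card n)) :
    ∃ A ⊆ aSet α, A.Infinite ∧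
      (∀ f : Cardinal.{u} → Cardinal.{u}, (∀ x ∈ A, (f x).IsRegular ∧ f x ≤ succN α.card n) →
        ∀ (I : Type u) (F : I → List Ordinal.{u} → Ordinal.{u}), #I ≤ succN α.card n →
        ∃ M : Set Ordinal.{u}, (∀ i l, (∀ z ∈ l, z ∈ M) → F i l ∈ M) ∧
          Iio (succN α.card n).ord ⊆ M ∧ #M ≤ Cardinal.lift.{u+1} (succN α.card n) ∧
          ∀ x ∈ A, ∃ s < x.ord, s.cof = f x ∧ IsLUB (M ∩ Iio x.ord) s) ∧
      ∀ S : Cardinal.{u} → Set Ordinal.{u},
      (∀ x ∈ A, ∃ C, ClubIn C x.ord ∧ ∀ δ ∈ C, δ < x.ord →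
        δ.cof = Order.succ (succN α.card n) → StatIn (S x) δ) →
      ∀ (I : Type u) (F : I → List Ordinal.{u} → Ordinal.{u}), #I ≤ succN α.card n →
        ∃ M : Set Ordinal.{u}, (∀ i l, (∀ z ∈ l, z ∈ M) → F i l ∈ M) ∧
          Iio (succN α.card n).ord ⊆ M ∧ #M ≤ Cardinal.lift.{u+1} (succN α.card n) ∧
          ∀ x ∈ A, ∃ s ∈ S x, s < x.ord ∧ IsLUB (M ∩ Iio x.ord) s := by
  obtain ⟨A, hA, hAinf, hS⟩ := main_all hα hv n hpow
  refine ⟨A, hA, hAinf, fun f hf I F hI => ?_, hS⟩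
  obtain ⟨M, hM1, hM2, hM3, hM4⟩ := hS (fun x => {y | y.cof = f x}) (fun x hx =>
    ⟨univ, ⟨fun z hz => ⟨Order.succ z, trivial, Order.lt_succ z,
      (Cardinal.isSuccLimit_ord (aSet_regular x (hA hx)).1).succ_lt hz⟩,
      fun _ _ _ _ => trivial⟩, fun δ _ _ hδ => Helper19.CP.stat_cof (hf x hx).1 (by
        rw [hδ]
        exact Order.lt_succ_iff.2 (hf x hx).2)⟩) I F hI
  refine ⟨M, hM1, hM2, hM3, fun x hx => ?_⟩
  obtain ⟨s, h1, h2, h3⟩ := hM4 x hx
  exact ⟨s, h2, h1, h3⟩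

end Helper55.CP
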