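import Pool.Agent.Helper55.CP.Capture
import Pool.Agent.Helper63.CP.Step
import Pool.Agent.Helper57.CP.Chain
import Pool.Agent.Helper8.CP.Agree
import Pool.Agent.Helper8.CP.Ladder
import Pool.Agent.Helper85.CP.Free

/-! All patterns of cofinalities on one infinite set. -/

set_option autoImplicit false

open Cardinal Ordinal Set Filter Helper23.Pcf Helper85.CP

universe u

namespace Helper55.CP

/-- an injective sequence of cardinals has an increasing subsequence -/
theorem exists_incr (f : ℕ → Cardinal.{u}) (hf : Function.Injective f) :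
    ∃ g : ℕ ↪o ℕ, ∀ m n, m < n → f (g m) < f (g n) := by
  obtain ⟨g, h | h⟩ := exists_increasing_or_nonincreasing_subseq (· < ·) f
  · exact ⟨g, h⟩
  · exfalso
    have h1 : ∀ m n, m < n → f (g n) < f (g m) := fun m n hmn =>
      lt_of_le_of_ne (not_lt.1 (h m n hmn)) fun he => hmn.ne' (g.injective (hf he))
    exact (RelEmbedding.wellFounded_iff_isEmpty.1 Cardinal.lt_wf).false
      ⟨⟨fun n => f (g n), fun m n hmn => g.injective (hf hmn)⟩, fun {m n} => by
        constructor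
        · intro h2
          by_contra h3
          rcases (not_lt.1 h3).eq_or_lt with h4 | h4
          · subst h4
            exact absurd h2 (lt_irrefl _)
          · exact absurd (h1 _ _ h4) (not_lt.2 (le_of_lt h2))
        · exact fun h2 => h1 _ _ h2⟩

/-- the operations of the proof -/
noncomputable def ops (T : Data.{u}) (S : Scales T) {I : Type u}
    (F : I → List Ordinal.{u} → Ordinal.{u}) (e : Ordinal.{u} → Ordinal.{u} → Ordinal.{u}) :
    (I ⊕ (T.Q × T.P) ⊕ (T.Q × T.P) ⊕ PUnit.{u+1} ⊕ (T.P × T.P)) → List Ordinal.{u} → Ordinal.{u}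
  | .inl i, l => F i l
  | .inr (.inl qp), l => S.f qp.1 (l.headD 0) qp.2
  | .inr (.inr (.inl qp)), l => gm (fun ξ => S.f qp.1 ξ qp.2) (l.headD 0)
  | .inr (.inr (.inr (.inl _))), l => e (l.headD 0) (l.tail.headD 0)
  | .inr (.inr (.inr (.inr bx))), l => chi (Clo F (ls l ∪ Iio (T.c bx.1).ord)) (T.c bx.2).ord

theorem mk_ls (l : List Ordinal.{u}) : #(ls l) < ℵ₀ := by
  rw [Cardinal.lt_aleph0_iff_set_finite]
  exact List.finite_toSet l

/-- One infinite set of points `x n` with normal sequences `v n` below them: whatever blocks `K n`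
of indices from the club `C` are taken, the closure of the blocks `v n '' K n` has its suprema
where the blocks have theirs. -/
theorem patterns (T : Data.{u}) (H : Theta T) {ms : Cardinal.{u}} (hms : ms.IsRegular)
    (hκms1 : Order.succ T.κ < ms) (hmsμ : ms ≤ T.μ) {I : Type u}
    (hI : #I ≤ T.μ) (F : I → List Ordinal.{u} → Ordinal.{u}) (B : Set Ordinal.{u})
    (hB : #B ≤ Cardinal.lift.{u+1} T.μ) :
    ∃ (x : ℕ → T.P) (v : ℕ → Ordinal.{u} → Ordinal.{u}) (C : Set Ordinal.{u}),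
      (∀ n, x n ∈ H.a) ∧ (∀ m n, m < n → T.c (x m) < T.c (x n)) ∧ ClubIn C ms.ord ∧
      (∀ n i j, i < j → j ≤ ms.ord → v n i < v n j) ∧
      (∀ n, v n ms.ord < (T.c (x n)).ord) ∧
      (∀ n i, i ≤ ms.ord → Order.IsSuccLimit i →
        (∀ y < v n i, ∃ j < i, y < v n j) ∧ (v n i).cof = i.cof) ∧
      ∀ (K : ℕ → Set Ordinal.{u}) (i : ℕ → Ordinal.{u}),
        (∀ n, i n ∈ C ∧ i n < ms.ord ∧ Order.IsSuccLimit (i n) ∧ K n ⊆ C ∧ K n ⊆ Iio (i n) ∧
          UnbIn (K n) (i n)) → ∀ n,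
        IsLUB (Clo F (B ∪ ⋃ m, v m '' K m) ∩ Iio (T.c (x n)).ord) (v n (i n)) := by
  classical
  have hκms : T.κ < ms := (Order.lt_succ _).trans hκms1
  obtain ⟨S⟩ := scales_exist T
  obtain ⟨e, he⟩ := Helper8.CP.ladder_exists.{u}
  have hμ0 : ℵ₀ ≤ T.μ := T.hκ.trans T.hκμ
  have hμl : ℵ₀ ≤ Cardinal.lift.{u+1} T.μ := Cardinal.aleph0_le_lift.2 hμ0
  set G := ops T S F e with hG
  have hJ : #(I ⊕ (T.Q × T.P) ⊕ (T.Q × T.P) ⊕ PUnit.{u+1} ⊕ (T.P × T.P)) ≤ T.μ := by
    simp only [Cardinal.mk_sum, Cardinal.mk_prod, Cardinal.lift_id, Cardinal.mk_punit]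
    have h1 : #T.Q * #T.P ≤ T.μ := Cardinal.mul_le_of_le hμ0 T.hQ T.hP
    have h2 : #T.P * #T.P ≤ T.μ := Cardinal.mul_le_of_le hμ0 T.hP T.hP
    exact Cardinal.add_le_of_le hμ0 hI (Cardinal.add_le_of_le hμ0 h1 (Cardinal.add_le_of_le hμ0 h1
      (Cardinal.add_le_of_le hμ0 (one_le_aleph0.trans hμ0) h2)))
  have hB' : #(B ∪ Iio ms.ord : Set Ordinal.{u}) ≤ Cardinal.lift.{u+1} T.μ := by
    refine (Cardinal.mk_union_le _ _).trans (Cardinal.add_le_of_le hμl hB ?_)
    rw [Cardinal.mk_Iio_ordinal, Cardinal.card_ord]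
    exact Cardinal.lift_le.2 hmsμ
  obtain ⟨N, hN⟩ := chain_exists_of T S G (B ∪ Iio ms.ord) hB'
    (fun M hM => step_exists T S hJ G M hM)
  have hμs : T.μ < Order.succ T.μ := Order.lt_succ _
  have hmsμ' : ms.ord < (Order.succ T.μ).ord := Cardinal.ord_lt_ord.2 (hmsμ.trans_lt hμs)
  have hmslim : Order.IsSuccLimit ms.ord := Cardinal.isSuccLimit_ord hms.1
  have hmscof : ms.ord.cof = ms := hms.cof_ord
  have hms0 : ℵ₀ < ms.ord.cof := by rw [hmscof]; exact T.hκ.trans_lt hκms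
  have hms' : T.κ < ms.ord.cof := by rw [hmscof]; exact hκms
  -- the last suprema
  have hstarcof : ∀ p, (xs T N ms p).cof = ms := fun p => by
    rw [xs, hN.chi_cof hmslim hmsμ' p, hmscof]
  have hstarlim : ∀ p, Order.IsSuccLimit (xs T N ms p) := fun p => by
    refine Ordinal.one_lt_cof_iff.1 ?_
    rw [hstarcof]
    exact one_lt_aleph0.trans_le hms.1
  have hstare : ∀ p, e (xs T N ms p) ms.ord = xs T N ms p := fun p => by
    have := (he _ (hstarlim p)).2.2
    rwa [hstarcof] at this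
  -- agreement
  have hagree : ∀ p, ClubIn {i | chi (N i) (T.c p).ord = e (xs T N ms p) i} ms.ord := by
    intro p
    obtain ⟨e1, e2, _⟩ := he _ (hstarlim p)
    refine Helper8.CP.agree hms0 _ _ (fun i j hij hj => hN.chi_strict hij (hj.trans hmsμ') p)
      (fun i j hij _ => e1 i j hij) (fun i _ hi x hx => hN.chi_cont hi hx)
      (fun i _ hi x hx => e2 i hi x hx) ?_ ?_
    · intro i hi
      have h1 : chi (N i) (T.c p).ord < e (xs T N ms p) ms.ord := by
        rw [hstare]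
        exact hN.chi_strict hi hmsμ' p
      exact e2 _ hmslim _ h1
    · intro i hi
      have h1 : e (xs T N ms p) i < xs T N ms p := by
        conv_rhs => rw [← hstare p]
        exact e1 _ _ hi
      exact hN.chi_cont hmslim h1
  have hE : ClubIn (⋂ p : H.a, {i | chi (N i) (T.c p.1).ord = e (xs T N ms p.1) i})
      ms.ord := club_iInter hms0 (H.ha.trans_lt hms') _ fun p => hagree p.1
  -- the infinite set
  obtain ⟨A, hAa, hAinf, _, C, hC, -, hAC⟩ := Helper85.CP.free_exists hN hms hκms1 hmsμ H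
    (fun q p => ⟨.inr (.inr (.inl (q, p))), fun δ => rfl⟩)
    (fun q => hN.capture (fun q p => ⟨.inr (.inl (q, p)), fun ξ => rfl⟩) hms' hmsμ' q)
  have hE' := club_inter hms0 hE hC
  set E := (⋂ p : H.a, {i | chi (N i) (T.c p.1).ord = e (xs T N ms p.1) i}) ∩ C with hEdef
  let x : ℕ → T.P := fun n => (hAinf.natEmbedding A n : T.P)
  have hx : Function.Injective x := fun m n h =>
    (hAinf.natEmbedding A).injective (Subtype.ext h)
  have hxA : ∀ n, x n ∈ A := fun n => (hAinf.natEmbedding A n).2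
  obtain ⟨g, hg⟩ := exists_incr (fun n => T.c (x n)) fun m n hmn => hx (T.inj hmn)
  let y : ℕ → T.P := fun n => x (g (n + 1))
  have hylt : ∀ m n, m < n → T.c (y m) < T.c (y n) := fun m n hmn => hg _ _ (by omega)
  have hya : ∀ n, y n ∈ H.a := fun n => hAa (hxA _)
  refine ⟨y, fun n i => chi (N i) (T.c (y n)).ord, E, hya, hylt, hE',
    fun n i j hij hj => hN.chi_strict hij (hj.trans_lt hmsμ') _,
    fun n => hN.chi_lt hmsμ' _,
    fun n i hi hlim => ⟨fun z hz => hN.chi_cont hlim hz,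
      hN.chi_cof hlim (hi.trans_lt hmsμ') _⟩, ?_⟩
  intro K ii hK n
  obtain ⟨k0, k1, hilim, k3, k4, k5⟩ := hK n
  set i := ii n with hi
  have hiμ : i < (Order.succ T.μ).ord := k1.trans hmsμ'
  set δ := chi (N i) (T.c (y n)).ord with hδ
  set U : Set T.P := {p | p ∈ A ∧ T.c (y n) < T.c p} with hU
  set W : Set Ordinal.{u} := Clo G (N i ∪ xs T N ms '' U) with hW
  have hWδ : ∀ z ∈ W, z < (T.c (y n)).ord → z < δ := by
    intro z hz hzc
    exact hAC i k0.2 k1 (y n) (hxA _) z hz hzc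
  have hNi : N 0 ⊆ W := (hN.mono _ _ zero_le).trans (subset_union_left.trans subset_Clo)
  set b : T.P := x (g n) with hb
  have hbn : T.c b < T.c (y n) := hg _ _ (Nat.lt_succ_self n)
  -- the generators
  have hgen : B ∪ ⋃ m, (fun i => chi (N i) (T.c (y m)).ord) '' K m ⊆ W ∪ Iio (T.c b).ord := by
    rintro z (hz | hz)
    · exact Or.inl (hNi (hN.base 0 (Or.inl hz)))
    obtain ⟨m, hm⟩ := mem_iUnion.1 hz
    obtain ⟨j, hj, rfl⟩ := hm
    obtain ⟨m0, m1, mlim, m3, m4, m5⟩ := hK m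
    have hjms : j < ms.ord := lt_trans (m4 hj) m1
    rcases lt_trichotomy m n with hmn | hmn | hmn
    · right
      refine (hN.chi_lt (hjms.trans hmsμ') _).trans_le (Cardinal.ord_le_ord.2 ?_)
      rcases (Nat.succ_le_of_lt hmn).eq_or_lt with h1 | h1
      · exact le_of_eq (by rw [hb, ← h1])
      · exact (hg _ _ h1).le
    · left
      subst hmn
      refine subset_Clo (Or.inl (hN.chi j i (k4 hj) hiμ _))
    · left
      have h1 : chi (N j) (T.c (y m)).ord = e (xs T N ms (y m)) j :=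
        mem_iInter.1 (m3 hj).1 ⟨y m, hya m⟩
      show chi (N j) (T.c (y m)).ord ∈ W
      rw [h1]
      have h2 : xs T N ms (y m) ∈ W :=
        subset_Clo (Or.inr ⟨y m, ⟨hxA _, hylt _ _ hmn⟩, rfl⟩)
      have h3 : j ∈ W := hNi (hN.base 0 (Or.inr hjms))
      exact Clo_closed (G := G) (.inr (.inr (.inr (.inl PUnit.unit))))
        [xs T N ms (y m), j] (by
          intro z hz
          rcases List.mem_cons.1 hz with rfl | hz
          · exact h2
          · rw [List.mem_singleton] at hz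
            subst hz
            exact h3)
  refine ⟨?_, ?_⟩
  · -- upper bound
    rintro z ⟨hz, hzc⟩
    have hz' := Clo_mono hgen hz
    obtain ⟨l, hl, hzl⟩ := Clo_finite hz'
    let l' := l.filter (fun w => decide (w ∈ W))
    have hl' : ∀ w ∈ l', w ∈ W := fun w hw => by
      have := (List.mem_filter.1 hw).2
      simpa using this
    have hsub : ls l ⊆ ls l' ∪ Iio (T.c b).ord := by
      intro w hw
      rcases hl w hw with h1 | h1
      · exact Or.inl (List.mem_filter.2 ⟨hw, by simpa using h1⟩)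
      · exact Or.inr h1
    have hs : chi (Clo F (ls l' ∪ Iio (T.c b).ord)) (T.c (y n)).ord ∈ W :=
      Clo_closed (G := G) (.inr (.inr (.inr (.inr (b, y n))))) l' hl'
    have hbinf : ℵ₀ ≤ T.c b := (T.reg b).1
    have hcard : #(Clo F (ls l' ∪ Iio (T.c b).ord)) ≤ Cardinal.lift.{u+1} (T.c b) := by
      refine mk_Clo_le hbinf (hI.trans (T.hμc b).le) ?_
      have hbl : ℵ₀ ≤ Cardinal.lift.{u+1} (T.c b) := Cardinal.aleph0_le_lift.2 hbinf
      refine (Cardinal.mk_union_le _ _).trans (Cardinal.add_le_of_le hbl ?_ ?_)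
      · exact (mk_ls l').le.trans hbl
      · rw [Cardinal.mk_Iio_ordinal, Cardinal.card_ord]
    have hslt : chi (Clo F (ls l' ∪ Iio (T.c b).ord)) (T.c (y n)).ord < (T.c (y n)).ord :=
      chi_lt (T.reg _) (hcard.trans_lt (Cardinal.lift_lt.2 hbn))
    have hz3 : z ∈ Clo F (ls l' ∪ Iio (T.c b).ord) := Clo_mono hsub hzl
    exact (lt_chi hz3 hzc).le.trans (hWδ _ hs hslt).le
  · -- least
    intro w hw
    by_contra hcon
    rw [not_le] at hcon
    obtain ⟨η, hη, h1⟩ := hN.chi_cont hilim hcon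
    obtain ⟨j, hj, h2, h3⟩ := k5 η hη
    have h4 : chi (N j) (T.c (y n)).ord ∈ Clo F (B ∪ ⋃ m, (fun i => chi (N i) (T.c (y m)).ord) ''
        K m) ∩ Iio (T.c (y n)).ord :=
      ⟨subset_Clo (Or.inr (mem_iUnion.2 ⟨n, j, hj, rfl⟩)), hN.chi_lt (h3.trans hiμ) _⟩
    have h5 := hw h4
    exact absurd (h1.trans_le (hN.chi_mono h2.le _)) (not_lt.2 h5)

/-- The same with shorter sequences. -/
theorem patterns' (T : Data.{u}) (H : Theta T) {ms σ : Cardinal.{u}} (hms : ms.IsRegular)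
    (hκms1 : Order.succ T.κ < ms) (hmsμ : ms ≤ T.μ) (hσ : σ.IsRegular) (hσ0 : ℵ₀ < σ)
    (hσms : σ < ms) {I : Type u}
    (hI : #I ≤ T.μ) (F : I → List Ordinal.{u} → Ordinal.{u}) (B : Set Ordinal.{u})
    (hB : #B ≤ Cardinal.lift.{u+1} T.μ) :
    ∃ (x : ℕ → T.P) (v : ℕ → Ordinal.{u} → Ordinal.{u}) (C : Set Ordinal.{u}),
      (∀ n, x n ∈ H.a) ∧ (∀ m n, m < n → T.c (x m) < T.c (x n)) ∧ ClubIn C σ.ord ∧
      (∀ n i j, i < j → j ≤ σ.ord → v n i < v n j) ∧
      (∀ n, v n σ.ord < (T.c (x n)).ord) ∧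
      (∀ n i, i ≤ σ.ord → Order.IsSuccLimit i →
        (∀ y < v n i, ∃ j < i, y < v n j) ∧ (v n i).cof = i.cof) ∧
      ∀ (K : ℕ → Set Ordinal.{u}) (i : ℕ → Ordinal.{u}),
        (∀ n, i n ∈ C ∧ i n < σ.ord ∧ Order.IsSuccLimit (i n) ∧ K n ⊆ C ∧ K n ⊆ Iio (i n) ∧
          UnbIn (K n) (i n)) → ∀ n,
        IsLUB (Clo F (B ∪ ⋃ m, v m '' K m) ∩ Iio (T.c (x n)).ord) (v n (i n)) := by
  classical
  obtain ⟨x, v, C, h1, h2, hC, hv1, hv2, hv3, hmain⟩ := patterns T H hms hκms1 hmsμ hI F B hB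
  have hms0 : ℵ₀ < ms.ord.cof := by rw [hms.cof_ord]; exact hσ0.trans hσms
  obtain ⟨s, ⟨hsu, hsC⟩, hsms, hscof, hslim, -⟩ := Helper85.CP.point_exists' hσ hms hσms
    (club_inter hms0 (Helper85.Refl.club_acc hms0 hC.unb) hC)
  have hsu' : UnbIn C s := hsu
  have hCs : ClubIn C s := ⟨hsu', fun δ hδ hδ0 hu => hC.cl δ (hδ.trans hsms) hδ0 hu⟩
  obtain ⟨Φ, w, hw, hws⟩ := exists_cont_cofinal hslim
  rw [hscof] at hws
  have hσcof : ℵ₀ < σ.ord.cof := by rw [hσ.cof_ord]; exact hσ0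
  have hC' : ClubIn {i | w i ∈ C} σ.ord := club_preimage hw hσcof (by rw [hws]; exact hCs)
  have hws' : ∀ i, i ≤ σ.ord → w i ≤ ms.ord := fun i hi => by
    have := cont_le hw hi
    rw [hws] at this
    exact this.trans hsms.le
  have hwlim : ∀ i, Order.IsSuccLimit i → Order.IsSuccLimit (w i) := fun i hi => by
    rw [← Ordinal.one_lt_cof_iff, cont_cof hw hi]
    exact Ordinal.one_lt_cof_iff.2 hi
  refine ⟨x, fun n i => v n (w i), {i | w i ∈ C}, h1, h2, hC', ?_, ?_, ?_, ?_⟩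
  · exact fun n i j hij hj => hv1 n _ _ (cont_lt hw hij) (hws' j hj)
  · intro n
    show v n (w σ.ord) < (T.c (x n)).ord
    rw [hws]
    exact (hv1 n s _ hsms le_rfl).trans (hv2 n)
  · intro n i hi hlim
    obtain ⟨g1, g2⟩ := hv3 n (w i) (hws' i hi) (hwlim i hlim)
    refine ⟨fun y hy => ?_, by rw [g2, cont_cof hw hlim]⟩
    obtain ⟨j, hj, hyj⟩ := g1 y hy
    obtain ⟨j', hj', hjj'⟩ := cont_limit hw hlim.isSuccPrelimit hj
    exact ⟨j', hj', hyj.trans (hv1 n _ _ hjj' (hws' _ (hj'.le.trans hi)))⟩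
  · intro K i hK n
    have h3 := hmain (fun m => w '' K m) (fun m => w (i m)) (fun m => ?_) n
    · have h4 : (⋃ m, (fun i => v m (w i)) '' K m) = ⋃ m, v m '' (w '' K m) := by
        simp only [image_image]
      show IsLUB (Clo F (B ∪ ⋃ m, (fun i => v m (w i)) '' K m) ∩ _) _
      rw [h4]
      exact h3
    · obtain ⟨k0, k1, k2, k3, k4, k5⟩ := hK m
      refine ⟨k0, ?_, hwlim _ k2, ?_, ?_, ?_⟩
      · have := cont_lt hw k1
        rw [hws] at this
        exact this.trans hsms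
      · rintro _ ⟨j, hj, rfl⟩
        exact k3 hj
      · rintro _ ⟨j, hj, rfl⟩
        exact cont_lt hw (k4 hj)
      · intro y hy
        obtain ⟨j, hj, hyj⟩ := cont_limit hw k2.isSuccPrelimit hy
        obtain ⟨j', hj', h5, h6⟩ := k5 j hj
        exact ⟨w j', ⟨j', hj', rfl⟩, hyj.trans (cont_lt hw h5), cont_lt hw h6⟩

end Helper55.CP
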